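import Pool.Agent.J4.H52.PMI.AllQ

/-!
# The power means with exponent between 1/2 and 1 are monotonic for all Schatten norms

Write `r = 1/p`, `A = X^p`, `B = Y^p`. The gap `s A^r + (1-s) B^r - (s A + (1-s) B)^r` is positive
semidefinite and its Schatten norms are at most `s (1-s)` times those of `|A - B|^r` (integral
representation; for each resolvent the number of eigenvalues above a bound is controlled by the
number of large eigenvalues of `A - B`; majorization), and the norm of `|A - B|^r` is at most that of
`A^r - B^r` (Ando's inequality, by the same method).
-/

set_option autoImplicit false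

open scoped ENNReal

namespace Pool.Agent.Results.MP_9bce2c_an.HalfToOne

open Pool.Agent.N95.PM

/-- For every Schatten exponent `q` in `[1, ∞]` and every exponent `p` in `[1/2, 1]` the weighted
power mean is monotonic. -/
theorem result : ∀ (q : ℝ≥0∞) (p : ℝ), 1 ≤ q → 1 / 2 ≤ p → p ≤ 1 → PowerMeanMonotonic p q :=
  Pool.Agent.J4.H52.PMI.main_all

end Pool.Agent.Results.MP_9bce2c_an.HalfToOne
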