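import Pool.Agent.J4.H52.PMI.Small

/-!
# The power means with small positive exponents are not monotonic for any Schatten norm

Let `r = 1/p ≥ 25`. With `A = X^p` close to `0.96` times a projection and `B = Y^p` close to a
projection, whose ranges form the angle with cosine `15/17`, all the eigenvalues of
`C = 0.55 A + 0.45 B` are at most `0.9211 < 0.96`. Hence `‖C^r - B^r‖_q ≥ 1 - 0.9211^r`, which is
larger than the trace norm of `A^r - B^r`.
-/

set_option autoImplicit false

open scoped ENNReal

namespace Pool.Agent.Results.MP_9bce2c_an.SmallExponents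

open Pool.Agent.N95.PM

/-- For no Schatten exponent `q` in `[1, ∞]` and no exponent `p` in `(0, 1/25]` the weighted power
mean is monotonic. -/
theorem result : ∀ (q : ℝ≥0∞) (p : ℝ), 1 ≤ q → 0 < p → p ≤ 1 / 25 → ¬ PowerMeanMonotonic p q :=
  fun q p hq hp hp1 => Pool.Agent.J4.H52.PMI.small_not p hp hp1 q hq

end Pool.Agent.Results.MP_9bce2c_an.SmallExponents
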